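import Mathlib

/-!
# Truncated gap integrals with exponent below one on the line (MP_a53ef7_an, Q1)

For `p ∈ [0,1)` and `m = 1` the scaling inequality
`G_p^ε (f, Ω) ≤ C (δ/ε)^(m-p) G_p^δ (f, Ω)` fails for every constant `C`, for every target
containing a geodesic segment.
-/

open MeasureTheory Set Filter Topology
open scoped ENNReal

namespace Pool.Agent.Results.MP_a53ef7_an.LineFails

/-- The truncated gap integral. The Euclidean space `E` with its Lebesgue measure plays the role of
`ℝ^m`, and `m` is its dimension. -/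
noncomputable def gapIntegral {E N : Type*} [NormedAddCommGroup E] [InnerProductSpace ℝ E]
    [FiniteDimensional ℝ E] [MeasurableSpace E] [BorelSpace E] [MetricSpace N]
    (p t : ℝ) (f : E → N) (Ω : Set E) : ℝ≥0∞ :=
  ∫⁻ x in Ω, ∫⁻ y in Ω, if t ≤ dist (f y) (f x) then
    ENNReal.ofReal ((dist (f y) (f x) - t) ^ p / ‖y - x‖ ^ (2 * Module.finrank ℝ E)) else 0

/-- The scaling inequality of the question, for the exponent `p`, the domain space `E` (that is
`ℝ^m` with `m = dim E`) and the target `N`. -/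
def ScalingInequality (E N : Type) [NormedAddCommGroup E] [InnerProductSpace ℝ E]
    [FiniteDimensional ℝ E] [MeasurableSpace E] [BorelSpace E] [MetricSpace N]
    [MeasurableSpace N] (p : ℝ) : Prop :=
  ∃ C : ℝ, 0 < C ∧ ∀ Ω : Set E, Convex ℝ Ω → ∀ f : E → N, Measurable f →
    ∀ δ ε : ℝ, 0 < δ → δ < ε →
      gapIntegral p ε f Ω ≤
        ENNReal.ofReal (C * (δ / ε) ^ ((Module.finrank ℝ E : ℝ) - p)) * gapIntegral p δ f Ω

/-- the clamped linear function -/
noncomputable def theta (D h x : ℝ) : ℝ := max (min (D * x / h) D) 0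

lemma theta_mem {D h : ℝ} (hD : 0 < D) (x : ℝ) : theta D h x ∈ Icc (0:ℝ) D := by
  unfold theta
  exact ⟨le_max_right _ _, max_le (min_le_right _ _) hD.le⟩

lemma theta_nonpos {D h : ℝ} (hD : 0 < D) (hh : 0 < h) {x : ℝ} (hx : x ≤ 0) :
    theta D h x = 0 := by
  unfold theta
  have : D * x / h ≤ 0 := by
    apply div_nonpos_of_nonpos_of_nonneg _ hh.le
    exact mul_nonpos_of_nonneg_of_nonpos hD.le hx
  rw [max_eq_right]
  exact le_trans (min_le_left _ _) this

lemma theta_ge {D h : ℝ} (hD : 0 < D) (hh : 0 < h) {x : ℝ} (hx : h ≤ x) :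
    theta D h x = D := by
  unfold theta
  have : D ≤ D * x / h := by
    rw [le_div_iff₀ hh]
    exact mul_le_mul_of_nonneg_left hx hD.le
  rw [min_eq_right this, max_eq_left hD.le]

lemma theta_lip {D h : ℝ} (hD : 0 < D) (hh : 0 < h) (x y : ℝ) :
    |theta D h y - theta D h x| ≤ D / h * |y - x| := by
  unfold theta
  have h1 := abs_max_sub_max_le_abs (min (D * y / h) D) (min (D * x / h) D) 0
  have h2 := abs_min_sub_min_le_max (D * y / h) D (D * x / h) D
  have h3 : |D * y / h - D * x / h| = D / h * |y - x| := by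
    have : D * y / h - D * x / h = D / h * (y - x) := by ring
    rw [this, abs_mul, abs_of_pos (div_pos hD hh)]
  rw [sub_self, abs_zero, h3, max_eq_left (by positivity)] at h2
  exact h1.trans h2

lemma theta_cont (D h : ℝ) : Continuous (theta D h) := by
  unfold theta
  fun_prop

/-! ### One-variable integrals -/

lemma tail_eq {r : ℝ} (hr : 0 < r) :
    ∫⁻ s, (if r ≤ s then ENNReal.ofReal (1 / s ^ 2) else 0) = ENNReal.ofReal (1 / r) := by
  have h0 : (fun s : ℝ => if r ≤ s then ENNReal.ofReal (1 / s ^ 2) else 0) =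
      (Ici r).indicator (fun s => ENNReal.ofReal (1 / s ^ 2)) := by
    funext s
    by_cases h : r ≤ s
    · rw [if_pos h, indicator_of_mem (mem_Ici.2 h)]
    · rw [if_neg h, indicator_of_notMem (by simpa using h)]
  rw [h0, lintegral_indicator measurableSet_Ici, setLIntegral_congr Ioi_ae_eq_Ici.symm]
  have h1 : ∀ s ∈ Ioi r, ENNReal.ofReal (1 / s ^ 2) = ENNReal.ofReal (s ^ (-2 : ℝ)) := by
    intro s hs
    have hs0 : 0 < s := hr.trans hs
    congr 1
    rw [Real.rpow_neg hs0.le, one_div]
    norm_cast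
  rw [setLIntegral_congr_fun measurableSet_Ioi h1,
    ← ofReal_integral_eq_lintegral_ofReal (integrableOn_Ioi_rpow_of_lt (by norm_num) hr)]
  · rw [integral_Ioi_rpow_of_lt (by norm_num) hr]
    congr 1
    norm_num
    rw [Real.rpow_neg_one]
  · rw [EventuallyLE, ae_restrict_iff' measurableSet_Ioi]
    refine Eventually.of_forall fun s hs => ?_
    exact Real.rpow_nonneg (hr.trans hs).le _

lemma phi_le {r : ℝ} (hr : 0 < r) (x : ℝ) :
    ∫⁻ y, (if r ≤ |y - x| then ENNReal.ofReal (1 / (y - x) ^ 2) else 0) ≤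
      ENNReal.ofReal (2 / r) := by
  set F : ℝ → ℝ≥0∞ := fun s => if r ≤ |s| then ENNReal.ofReal (1 / s ^ 2) else 0 with hF
  set G : ℝ → ℝ≥0∞ := fun s => if r ≤ s then ENNReal.ofReal (1 / s ^ 2) else 0 with hG
  have h1 : ∫⁻ y, F (y - x) = ∫⁻ s, F s := lintegral_sub_right_eq_self F x
  have hGm : Measurable G := by
    rw [hG]
    exact Measurable.ite measurableSet_Ici (by fun_prop) measurable_const
  have h2 : ∀ s, F s ≤ G s + G (-s) := by
    intro s
    simp only [hF, hG]
    by_cases h : r ≤ |s|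
    · rw [if_pos h]
      rcases le_abs.1 h with h' | h'
      · rw [if_pos h']
        exact le_self_add
      · rw [if_pos h', neg_sq]
        exact le_add_self
    · rw [if_neg h]
      exact bot_le
  have h3 : ∫⁻ s, F s ≤ ENNReal.ofReal (1 / r) + ENNReal.ofReal (1 / r) := by
    calc ∫⁻ s, F s ≤ ∫⁻ s, (G s + G (-s)) := lintegral_mono h2
      _ = (∫⁻ s, G s) + ∫⁻ s, G (-s) := lintegral_add_left hGm _
      _ = (∫⁻ s, G s) + ∫⁻ s, G s := by rw [lintegral_neg_eq_self]
      _ = ENNReal.ofReal (1 / r) + ENNReal.ofReal (1 / r) := by rw [hG, tail_eq hr]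
  have h4 : ENNReal.ofReal (1 / r) + ENNReal.ofReal (1 / r) = ENNReal.ofReal (2 / r) := by
    rw [← ENNReal.ofReal_add (by positivity) (by positivity)]
    congr 1
    ring
  rw [← h4]
  exact (le_of_eq h1).trans h3

lemma log_eq {s : ℝ} (hs : 0 < s) (hs2 : s ≤ 2) :
    ∫⁻ x, (Icc s 2).indicator (fun x => ENNReal.ofReal (1 / x)) x =
      ENNReal.ofReal (Real.log (2 / s)) := by
  rw [lintegral_indicator measurableSet_Icc, ← ofReal_integral_eq_lintegral_ofReal]
  · rw [integral_Icc_eq_integral_Ioc, ← intervalIntegral.integral_of_le hs2,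
      integral_one_div_of_pos hs (by norm_num)]
  · apply ContinuousOn.integrableOn_compact isCompact_Icc
    apply ContinuousOn.div continuousOn_const continuousOn_id
    intro x hx
    have : 0 < x := hs.trans_le hx.1
    exact this.ne'
  · rw [EventuallyLE, ae_restrict_iff' measurableSet_Icc]
    refine Eventually.of_forall fun x hx => ?_
    have : 0 < x := hs.trans_le hx.1
    simp only [Pi.zero_apply]
    positivity

lemma psi_le {s : ℝ} (hs : 0 < s) (hs2 : s ≤ 2) :
    ∫⁻ x in Icc (-2 : ℝ) 2, ENNReal.ofReal (1 / max |x| s) ≤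
      ENNReal.ofReal (2 + 2 * Real.log (2 / s)) := by
  set H : ℝ → ℝ≥0∞ := (Icc s 2).indicator (fun x => ENNReal.ofReal (1 / x)) with hH
  have hHm : Measurable H := by
    rw [hH]
    exact Measurable.indicator (by fun_prop) measurableSet_Icc
  set K : ℝ → ℝ≥0∞ := (Icc (-s) s).indicator (fun _ => ENNReal.ofReal (1 / s)) with hK
  have hKm : Measurable K := by
    rw [hK]
    exact Measurable.indicator measurable_const measurableSet_Icc
  have hlog : 0 ≤ Real.log (2 / s) := Real.log_nonneg (by rw [le_div_iff₀ hs]; linarith)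
  have h1 : ∫⁻ x in Icc (-2 : ℝ) 2, ENNReal.ofReal (1 / max |x| s) ≤
      ∫⁻ x, (K x + (H x + H (-x))) := by
    rw [← lintegral_indicator measurableSet_Icc]
    apply lintegral_mono
    intro x
    by_cases hx : x ∈ Icc (-2 : ℝ) 2
    · rw [indicator_of_mem hx]
      by_cases h : |x| ≤ s
      · have hxm : x ∈ Icc (-s) s := abs_le.1 h
        have : K x = ENNReal.ofReal (1 / s) := by rw [hK, indicator_of_mem hxm]
        rw [max_eq_right h]
        simp only
        rw [this]
        exact le_self_add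
      · push Not at h
        rw [max_eq_left h.le]
        rcases lt_abs.1 h with h' | h'
        · have hxm : x ∈ Icc s 2 := ⟨h'.le, hx.2⟩
          have : H x = ENNReal.ofReal (1 / x) := by rw [hH, indicator_of_mem hxm]
          rw [abs_of_pos (hs.trans h')]
          simp only
          rw [this]
          exact le_add_left le_self_add
        · have hxm : -x ∈ Icc s 2 := ⟨h'.le, by linarith [hx.1]⟩
          have : H (-x) = ENNReal.ofReal (1 / (-x)) := by rw [hH, indicator_of_mem hxm]
          rw [abs_of_neg (by linarith)]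
          simp only
          rw [this]
          exact le_add_left le_add_self
    · rw [indicator_of_notMem hx]
      exact bot_le
  refine h1.trans (le_of_eq ?_)
  rw [lintegral_add_left hKm, lintegral_add_left hHm, lintegral_neg_eq_self, hH, log_eq hs hs2, hK,
    lintegral_indicator measurableSet_Icc, setLIntegral_const, Real.volume_Icc,
    ← ENNReal.ofReal_mul (by positivity), ← ENNReal.ofReal_add hlog hlog,
    ← ENNReal.ofReal_add (by
      have : 0 ≤ 1 / s * (s - -s) := by
        have : s - -s = 2 * s := by ring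
        rw [this]
        positivity
      exact this) (by positivity)]
  congr 1
  field_simp
  ring

lemma psi_shift_le {s c : ℝ} (hs : 0 < s) (hs2 : s ≤ 2) (hc : 0 ≤ c) (hc1 : c ≤ 1) :
    ∫⁻ x in Icc (-1 : ℝ) 1, ENNReal.ofReal (1 / max |x - c| s) ≤
      ENNReal.ofReal (2 + 2 * Real.log (2 / s)) := by
  refine le_trans ?_ (psi_le hs hs2)
  rw [← lintegral_indicator measurableSet_Icc, ← lintegral_indicator measurableSet_Icc,
    ← lintegral_sub_right_eq_self
      ((Icc (-2 : ℝ) 2).indicator (fun x => ENNReal.ofReal (1 / max |x| s))) c]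
  apply lintegral_mono
  intro x
  simp only
  by_cases hx : x ∈ Icc (-1 : ℝ) 1
  · have hx' : x - c ∈ Icc (-2 : ℝ) 2 := ⟨by linarith [hx.1], by linarith [hx.2]⟩
    rw [indicator_of_mem hx, indicator_of_mem hx']
  · rw [indicator_of_notMem hx]
    exact bot_le

/-! ### The upper bound -/

/-- the radius below which nothing is seen from `x` -/
noncomputable def rad (h s x : ℝ) : ℝ :=
  if x ≤ 0 then max |x| s else if x < h then s else max |x - h| s

lemma rad_pos {h s : ℝ} (hs : 0 < s) (x : ℝ) : 0 < rad h s x := by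
  unfold rad
  split_ifs
  · exact lt_max_of_lt_right hs
  · exact hs
  · exact lt_max_of_lt_right hs

lemma rad_le {D h δ : ℝ} (hD : 0 < D) (hh : 0 < h) (hδ : 0 < δ) {x y : ℝ}
    (hxy : δ ≤ |theta D h y - theta D h x|) : rad h (h * δ / D) x ≤ |y - x| := by
  have h1 : h * δ / D ≤ |y - x| := by
    have h2 := hxy.trans (theta_lip hD hh x y)
    rw [div_le_iff₀ hD]
    rw [div_mul_eq_mul_div, le_div_iff₀ hh] at h2
    linarith
  unfold rad
  split_ifs with hx0 hxh
  · refine max_le ?_ h1
    rw [theta_nonpos hD hh hx0] at hxy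
    have hy : 0 < y := by
      by_contra hy
      push Not at hy
      rw [theta_nonpos hD hh hy, sub_zero, abs_zero] at hxy
      linarith
    rw [abs_of_nonpos hx0, abs_of_pos (by linarith)]
    linarith
  · exact h1
  · refine max_le ?_ h1
    push Not at hx0 hxh
    rw [theta_ge hD hh hxh] at hxy
    have hy : y < h := by
      by_contra hy
      push Not at hy
      rw [theta_ge hD hh hy, sub_self, abs_zero] at hxy
      linarith
    rw [abs_of_nonneg (by linarith), abs_of_neg (by linarith)]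
    linarith

lemma inv_rad_le {h s : ℝ} (hs : 0 < s) (x : ℝ) :
    ENNReal.ofReal (1 / rad h s x) ≤ ENNReal.ofReal (1 / max |x - 0| s) +
      (ENNReal.ofReal (1 / max |x - h| s) +
        (Icc 0 h).indicator (fun _ => ENNReal.ofReal (1 / s)) x) := by
  unfold rad
  split_ifs with hx0 hxh
  · rw [sub_zero]
    exact le_self_add
  · push Not at hx0
    have hm : x ∈ Icc 0 h := ⟨hx0.le, hxh.le⟩
    rw [indicator_of_mem hm]
    exact le_add_left le_add_self
  · exact le_add_left le_self_add

lemma int_inv_rad_le {h s : ℝ} (hs : 0 < s) (hs2 : s ≤ 2) (hh : 0 < h) (hh1 : h ≤ 1) :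
    ∫⁻ x in Icc (-1 : ℝ) 1, ENNReal.ofReal (1 / rad h s x) ≤
      ENNReal.ofReal (4 + 4 * Real.log (2 / s) + h / s) := by
  have hlog : 0 ≤ Real.log (2 / s) := Real.log_nonneg (by rw [le_div_iff₀ hs]; linarith)
  calc ∫⁻ x in Icc (-1 : ℝ) 1, ENNReal.ofReal (1 / rad h s x)
      ≤ ∫⁻ x in Icc (-1 : ℝ) 1, (ENNReal.ofReal (1 / max |x - 0| s) +
      (ENNReal.ofReal (1 / max |x - h| s) +
        (Icc 0 h).indicator (fun _ => ENNReal.ofReal (1 / s)) x)) :=
        lintegral_mono (inv_rad_le hs)
    _ = (∫⁻ x in Icc (-1 : ℝ) 1, ENNReal.ofReal (1 / max |x - 0| s)) +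
        ((∫⁻ x in Icc (-1 : ℝ) 1, ENNReal.ofReal (1 / max |x - h| s)) +
        ∫⁻ x in Icc (-1 : ℝ) 1, (Icc 0 h).indicator (fun _ => ENNReal.ofReal (1 / s)) x) := by
        rw [lintegral_add_left (by fun_prop), lintegral_add_left (by fun_prop)]
    _ ≤ ENNReal.ofReal (2 + 2 * Real.log (2 / s)) +
        (ENNReal.ofReal (2 + 2 * Real.log (2 / s)) + ENNReal.ofReal (h / s)) := by
        refine add_le_add (psi_shift_le hs hs2 le_rfl (by norm_num))
          (add_le_add (psi_shift_le hs hs2 hh.le hh1) ?_)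
        refine (setLIntegral_le_lintegral _ _).trans ?_
        rw [lintegral_indicator measurableSet_Icc, setLIntegral_const, Real.volume_Icc,
          ← ENNReal.ofReal_mul (by positivity)]
        apply ENNReal.ofReal_le_ofReal
        apply le_of_eq
        ring
    _ = ENNReal.ofReal (4 + 4 * Real.log (2 / s) + h / s) := by
        rw [← ENNReal.ofReal_add (by positivity) (by positivity),
          ← ENNReal.ofReal_add (by positivity) (by positivity)]
        congr 1
        ring

variable {N : Type} [MetricSpace N]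

lemma upper {D h δ p : ℝ} (hD : 0 < D) (hh : 0 < h) (hh1 : h ≤ 1) (hδ : 0 < δ) (hδD : δ ≤ D)
    (hp : 0 ≤ p) {f : ℝ → N} (hf : ∀ x y, dist (f y) (f x) = |theta D h y - theta D h x|) :
    gapIntegral p δ f (Icc (-1 : ℝ) 1) ≤
      ENNReal.ofReal (2 * D ^ p * (4 + 4 * Real.log (2 / (h * δ / D)) + h / (h * δ / D))) := by
  set s : ℝ := h * δ / D with hs
  have hs0 : 0 < s := by positivity
  have hs1 : s ≤ 2 := by
    rw [hs, div_le_iff₀ hD]
    nlinarith
  have hinner : ∀ x : ℝ, (∫⁻ y in Icc (-1 : ℝ) 1, if δ ≤ dist (f y) (f x) then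
      ENNReal.ofReal ((dist (f y) (f x) - δ) ^ p / ‖y - x‖ ^ (2 * Module.finrank ℝ ℝ)) else 0)
      ≤ ENNReal.ofReal (2 * D ^ p) * ENNReal.ofReal (1 / rad h s x) := by
    intro x
    have h1 : ∀ y : ℝ, (if δ ≤ dist (f y) (f x) then
      ENNReal.ofReal ((dist (f y) (f x) - δ) ^ p / ‖y - x‖ ^ (2 * Module.finrank ℝ ℝ)) else 0)
      ≤ ENNReal.ofReal (D ^ p) *
        (if rad h s x ≤ |y - x| then ENNReal.ofReal (1 / (y - x) ^ 2) else 0) := by
      intro y
      by_cases hd : δ ≤ dist (f y) (f x)
      · have hr : rad h s x ≤ |y - x| := by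
          rw [hf] at hd
          exact rad_le hD hh hδ hd
        rw [if_pos hd, if_pos hr, ← ENNReal.ofReal_mul (by positivity)]
        apply ENNReal.ofReal_le_ofReal
        rw [Module.finrank_self, mul_one, Real.norm_eq_abs, sq_abs, mul_one_div]
        apply div_le_div_of_nonneg_right _ (sq_nonneg _)
        apply Real.rpow_le_rpow (by linarith) _ hp
        rw [hf]
        have := theta_mem (h := h) hD x
        have := theta_mem (h := h) hD y
        have : |theta D h y - theta D h x| ≤ D := by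
          rw [abs_le]
          constructor
          · linarith [(theta_mem (h := h) hD x).2, (theta_mem (h := h) hD y).1]
          · linarith [(theta_mem (h := h) hD x).1, (theta_mem (h := h) hD y).2]
        linarith
      · rw [if_neg hd]
        exact bot_le
    calc (∫⁻ y in Icc (-1 : ℝ) 1, if δ ≤ dist (f y) (f x) then
      ENNReal.ofReal ((dist (f y) (f x) - δ) ^ p / ‖y - x‖ ^ (2 * Module.finrank ℝ ℝ)) else 0)
        ≤ ∫⁻ y in Icc (-1 : ℝ) 1, ENNReal.ofReal (D ^ p) *
        (if rad h s x ≤ |y - x| then ENNReal.ofReal (1 / (y - x) ^ 2) else 0) :=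
          lintegral_mono h1
      _ ≤ ∫⁻ y, ENNReal.ofReal (D ^ p) *
        (if rad h s x ≤ |y - x| then ENNReal.ofReal (1 / (y - x) ^ 2) else 0) :=
          setLIntegral_le_lintegral _ _
      _ = ENNReal.ofReal (D ^ p) * ∫⁻ y,
        (if rad h s x ≤ |y - x| then ENNReal.ofReal (1 / (y - x) ^ 2) else 0) := by
          rw [lintegral_const_mul' _ _ ENNReal.ofReal_ne_top]
      _ ≤ ENNReal.ofReal (D ^ p) * ENNReal.ofReal (2 / rad h s x) := by
          gcongr
          exact phi_le (rad_pos hs0 x) x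
      _ = ENNReal.ofReal (2 * D ^ p) * ENNReal.ofReal (1 / rad h s x) := by
          rw [← ENNReal.ofReal_mul (by positivity), ← ENNReal.ofReal_mul (by positivity)]
          congr 1
          ring
  unfold gapIntegral
  calc (∫⁻ x in Icc (-1 : ℝ) 1, ∫⁻ y in Icc (-1 : ℝ) 1, if δ ≤ dist (f y) (f x) then
      ENNReal.ofReal ((dist (f y) (f x) - δ) ^ p / ‖y - x‖ ^ (2 * Module.finrank ℝ ℝ)) else 0)
      ≤ ∫⁻ x in Icc (-1 : ℝ) 1,
        ENNReal.ofReal (2 * D ^ p) * ENNReal.ofReal (1 / rad h s x) := lintegral_mono hinner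
    _ = ENNReal.ofReal (2 * D ^ p) *
        ∫⁻ x in Icc (-1 : ℝ) 1, ENNReal.ofReal (1 / rad h s x) := by
        rw [lintegral_const_mul' _ _ ENNReal.ofReal_ne_top]
    _ ≤ ENNReal.ofReal (2 * D ^ p) * ENNReal.ofReal (4 + 4 * Real.log (2 / s) + h / s) := by
        gcongr
        exact int_inv_rad_le hs0 hs1 hh hh1
    _ = _ := by rw [← ENNReal.ofReal_mul (by positivity)]

/-! ### The lower bound -/

lemma inner_low {h x : ℝ} (hh : 0 < h) (hh1 : h ≤ 1) (hx : x ≤ 0) :
    ENNReal.ofReal (1 / (h - x) - 1 / (1 - x)) ≤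
      ∫⁻ y in Icc h 1, ENNReal.ofReal (1 / (y - x) ^ 2) := by
  rw [← ofReal_integral_eq_lintegral_ofReal]
  · apply ENNReal.ofReal_le_ofReal
    apply le_of_eq
    rw [integral_Icc_eq_integral_Ioc, ← intervalIntegral.integral_of_le hh1]
    have hd : ∀ y ∈ uIcc h 1, HasDerivAt (fun y : ℝ => -(1 / (y - x))) (1 / (y - x) ^ 2) y := by
      intro y hy
      rw [uIcc_of_le hh1] at hy
      have hne : y - x ≠ 0 := by
        have : 0 < y - x := by linarith [hy.1]
        exact this.ne'
      have h1 : HasDerivAt (fun y : ℝ => y - x) 1 y := (hasDerivAt_id y).sub_const x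
      have h2 := (h1.inv hne).neg
      simp only [one_div]
      refine h2.congr_deriv ?_
      field_simp
    rw [intervalIntegral.integral_eq_sub_of_hasDerivAt hd]
    · ring
    · apply ContinuousOn.intervalIntegrable
      apply ContinuousOn.div continuousOn_const (by fun_prop)
      intro y hy
      rw [uIcc_of_le hh1] at hy
      have : 0 < y - x := by linarith [hy.1]
      positivity
  · apply ContinuousOn.integrableOn_compact isCompact_Icc
    apply ContinuousOn.div continuousOn_const (by fun_prop)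
    intro y hy
    have : 0 < y - x := by linarith [hy.1]
    positivity
  · exact Eventually.of_forall fun y => by positivity

lemma outer_low {h : ℝ} (hh : 0 < h) (hh1 : h ≤ 1) :
    ENNReal.ofReal (Real.log (1 / h) - Real.log 2) ≤
      ∫⁻ x in Icc (-1 : ℝ) 0, ENNReal.ofReal (1 / (h - x) - 1 / (1 - x)) := by
  have hc1 : ContinuousOn (fun x : ℝ => 1 / (h - x)) (Icc (-1) 0) := by
    apply ContinuousOn.div continuousOn_const (by fun_prop)
    intro x hx
    have : 0 < h - x := by linarith [hx.2]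
    exact this.ne'
  have hc2 : ContinuousOn (fun x : ℝ => 1 / (1 - x)) (Icc (-1) 0) := by
    apply ContinuousOn.div continuousOn_const (by fun_prop)
    intro x hx
    have : 0 < 1 - x := by linarith [hx.2]
    exact this.ne'
  rw [← ofReal_integral_eq_lintegral_ofReal]
  · apply ENNReal.ofReal_le_ofReal
    rw [integral_Icc_eq_integral_Ioc, ← intervalIntegral.integral_of_le (by norm_num)]
    have hd : ∀ x ∈ uIcc (-1 : ℝ) 0,
        HasDerivAt (fun x : ℝ => Real.log (1 - x) - Real.log (h - x))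
          (1 / (h - x) - 1 / (1 - x)) x := by
      intro x hx
      rw [uIcc_of_le (by norm_num)] at hx
      have hne1 : 1 - x ≠ 0 := by
        have : 0 < 1 - x := by linarith [hx.2]
        exact this.ne'
      have hneh : h - x ≠ 0 := by
        have : 0 < h - x := by linarith [hx.2]
        exact this.ne'
      have h1 : HasDerivAt (fun y : ℝ => 1 - y) (-1) x := by
        simpa using (hasDerivAt_id x).const_sub 1
      have h2 : HasDerivAt (fun y : ℝ => h - y) (-1) x := by
        simpa using (hasDerivAt_id x).const_sub h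
      refine ((h1.log hne1).sub (h2.log hneh)).congr_deriv ?_
      ring
    rw [intervalIntegral.integral_eq_sub_of_hasDerivAt hd]
    · have e1 : (1:ℝ) - 0 = 1 := by ring
      have e2 : h - 0 = h := by ring
      have e3 : (1:ℝ) - -1 = 2 := by norm_num
      rw [e1, e2, e3, Real.log_one, one_div, Real.log_inv]
      have : 0 ≤ Real.log (h - -1) := Real.log_nonneg (by linarith)
      linarith
    · apply ContinuousOn.intervalIntegrable
      rw [uIcc_of_le (by norm_num)]
      exact hc1.sub hc2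
  · exact (hc1.sub hc2).integrableOn_compact isCompact_Icc
  · rw [EventuallyLE, ae_restrict_iff' measurableSet_Icc]
    refine Eventually.of_forall fun x hx => ?_
    have h1 : 0 < h - x := by linarith [hx.2]
    have h2 : 1 / (1 - x) ≤ 1 / (h - x) := one_div_le_one_div_of_le h1 (by linarith)
    simp only [Pi.zero_apply]
    linarith

lemma lower {D h p : ℝ} (hD : 0 < D) (hh : 0 < h) (hh1 : h ≤ 1)
    {f : ℝ → N} (hf : ∀ x y, dist (f y) (f x) = |theta D h y - theta D h x|) :
    ENNReal.ofReal ((D / 2) ^ p * (Real.log (1 / h) - Real.log 2)) ≤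
      gapIntegral p (D / 2) f (Icc (-1 : ℝ) 1) := by
  unfold gapIntegral
  have hstep : ∀ x ∈ Icc (-1 : ℝ) 0,
      ENNReal.ofReal ((D / 2) ^ p) * ENNReal.ofReal (1 / (h - x) - 1 / (1 - x)) ≤
      ∫⁻ y in Icc (-1 : ℝ) 1, if D / 2 ≤ dist (f y) (f x) then
      ENNReal.ofReal ((dist (f y) (f x) - D / 2) ^ p / ‖y - x‖ ^ (2 * Module.finrank ℝ ℝ)) else 0 := by
    intro x hx
    calc ENNReal.ofReal ((D / 2) ^ p) * ENNReal.ofReal (1 / (h - x) - 1 / (1 - x))
        ≤ ENNReal.ofReal ((D / 2) ^ p) *
          ∫⁻ y in Icc h 1, ENNReal.ofReal (1 / (y - x) ^ 2) := by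
          gcongr
          exact inner_low hh hh1 hx.2
      _ = ∫⁻ y in Icc h 1,
          ENNReal.ofReal ((D / 2) ^ p) * ENNReal.ofReal (1 / (y - x) ^ 2) := by
          rw [lintegral_const_mul' _ _ ENNReal.ofReal_ne_top]
      _ = ∫⁻ y in Icc h 1, if D / 2 ≤ dist (f y) (f x) then
      ENNReal.ofReal ((dist (f y) (f x) - D / 2) ^ p / ‖y - x‖ ^ (2 * Module.finrank ℝ ℝ)) else 0 := by
          apply setLIntegral_congr_fun measurableSet_Icc
          intro y hy
          have hdist : dist (f y) (f x) = D := by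
            rw [hf, theta_nonpos hD hh hx.2, theta_ge hD hh hy.1, sub_zero, abs_of_pos hD]
          simp only
          rw [hdist, if_pos (by linarith), ← ENNReal.ofReal_mul (by positivity),
            Module.finrank_self, mul_one, Real.norm_eq_abs, sq_abs, mul_one_div]
          congr 3
          ring
      _ ≤ _ := lintegral_mono_set (Icc_subset_Icc (by linarith) le_rfl)
  calc ENNReal.ofReal ((D / 2) ^ p * (Real.log (1 / h) - Real.log 2))
      = ENNReal.ofReal ((D / 2) ^ p) * ENNReal.ofReal (Real.log (1 / h) - Real.log 2) :=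
        ENNReal.ofReal_mul (by positivity)
    _ ≤ ENNReal.ofReal ((D / 2) ^ p) *
        ∫⁻ x in Icc (-1 : ℝ) 0, ENNReal.ofReal (1 / (h - x) - 1 / (1 - x)) := by
        gcongr
        exact outer_low hh hh1
    _ = ∫⁻ x in Icc (-1 : ℝ) 0,
        ENNReal.ofReal ((D / 2) ^ p) * ENNReal.ofReal (1 / (h - x) - 1 / (1 - x)) := by
        rw [lintegral_const_mul' _ _ ENNReal.ofReal_ne_top]
    _ ≤ ∫⁻ x in Icc (-1 : ℝ) 0, ∫⁻ y in Icc (-1 : ℝ) 1, if D / 2 ≤ dist (f y) (f x) then
      ENNReal.ofReal ((dist (f y) (f x) - D / 2) ^ p / ‖y - x‖ ^ (2 * Module.finrank ℝ ℝ)) else 0 :=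
        setLIntegral_mono' measurableSet_Icc hstep
    _ ≤ _ := lintegral_mono_set (Icc_subset_Icc le_rfl (by norm_num))

/-! ### Conclusion -/

lemma real_step {a b K : ℝ} (hall : ∀ L : ℝ, 0 ≤ L → a * (L - Real.log 2) ≤ b * (K + 4 * L))
    (ha : 0 < a) (hb : 0 ≤ b) (hK : 0 ≤ K) : a ≤ 4 * b := by
  by_contra hlt
  push Not at hlt
  have hlog : 0 ≤ Real.log 2 := Real.log_nonneg (by norm_num)
  have h0 : 0 < a - 4 * b := by linarith
  have h1 := hall ((b * K + a * Real.log 2 + 1) / (a - 4 * b)) (by positivity)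
  have h2 : (a - 4 * b) * ((b * K + a * Real.log 2 + 1) / (a - 4 * b)) =
      b * K + a * Real.log 2 + 1 := by
    field_simp
  nlinarith

theorem not_scaling [MeasurableSpace N] [BorelSpace N] {D : ℝ} (hD : 0 < D) {γ : ℝ → N}
    (hγ : ∀ s ∈ Icc (0:ℝ) D, ∀ t ∈ Icc (0:ℝ) D, dist (γ s) (γ t) = |s - t|)
    {p : ℝ} (hp : 0 ≤ p) (hp1 : p < 1) : ¬ ScalingInequality ℝ N p := by
  rintro ⟨C, hC, hall⟩
  -- the inequality for our maps
  have key : ∀ δ : ℝ, 0 < δ → δ < D / 2 →
      (D / 2) ^ p ≤ 4 * (C * (δ / (D / 2)) ^ (1 - p) * (2 * D ^ p)) := by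
    intro δ hδ hδD
    have hlogK : 0 ≤ Real.log (2 * D / δ) := by
      apply Real.log_nonneg
      rw [le_div_iff₀ hδ]
      linarith
    apply real_step (K := 4 + 4 * Real.log (2 * D / δ) + D / δ) _ (by positivity) (by positivity)
      (by positivity)
    intro L hL
    set h : ℝ := Real.exp (-L) with hhdef
    have hh : 0 < h := Real.exp_pos _
    have hh1 : h ≤ 1 := by
      rw [hhdef, Real.exp_le_one_iff]
      linarith
    have hlogh : Real.log (1 / h) = L := by
      rw [one_div, Real.log_inv, hhdef, Real.log_exp]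
      ring
    set f : ℝ → N := fun x => γ (theta D h x) with hfdef
    have hf : ∀ x y, dist (f y) (f x) = |theta D h y - theta D h x| := fun x y =>
      hγ _ (theta_mem hD y) _ (theta_mem hD x)
    have hfc : Continuous f := by
      rw [Metric.continuous_iff]
      intro x e he
      obtain ⟨d, hd, hd'⟩ := (Metric.continuous_iff.1 (theta_cont D h)) x e he
      refine ⟨d, hd, fun y hy => ?_⟩
      rw [hf]
      exact hd' y hy
    have hmain := hall (Icc (-1 : ℝ) 1) (convex_Icc _ _) f hfc.measurable δ (D / 2) hδ hδD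
    have hlow := lower (p := p) hD hh hh1 hf
    have hup := upper hD hh hh1 hδ (by linarith) hp hf
    have hchain := hlow.trans (hmain.trans (mul_le_mul_right hup _))
    rw [← ENNReal.ofReal_mul (by positivity), Module.finrank_self, hlogh] at hchain
    have hs : h / (h * δ / D) = D / δ := by
      field_simp
    have hs2 : 2 / (h * δ / D) = (1 / h) * (2 * D / δ) := by
      field_simp
    have hs3 : Real.log (2 / (h * δ / D)) = L + Real.log (2 * D / δ) := by
      rw [hs2, Real.log_mul (by positivity) (by positivity), hlogh]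
    rw [hs, hs3, ENNReal.ofReal_le_ofReal_iff (by positivity)] at hchain
    push_cast at hchain
    calc (D / 2) ^ p * (L - Real.log 2)
        ≤ C * (δ / (D / 2)) ^ (1 - p) *
          (2 * D ^ p * (4 + 4 * (L + Real.log (2 * D / δ)) + D / δ)) := hchain
      _ = C * (δ / (D / 2)) ^ (1 - p) * (2 * D ^ p) *
          (4 + 4 * Real.log (2 * D / δ) + D / δ + 4 * L) := by ring
  -- let δ tend to zero
  have hlim : Tendsto (fun δ : ℝ => 4 * (C * (δ / (D / 2)) ^ (1 - p) * (2 * D ^ p)))
      (𝓝[>] 0) (𝓝 0) := by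
    have h1 : Tendsto (fun δ : ℝ => (δ / (D / 2)) ^ (1 - p)) (𝓝[>] 0) (𝓝 0) := by
      have h2 : Tendsto (fun δ : ℝ => δ / (D / 2)) (𝓝 0) (𝓝 (0 / (D / 2))) :=
        tendsto_id.div_const _
      have h3 := (h2.rpow_const (p := 1 - p) (Or.inr (by linarith)))
      rw [zero_div, Real.zero_rpow (by linarith)] at h3
      exact h3.mono_left nhdsWithin_le_nhds
    have h4 := ((h1.const_mul C).mul_const (2 * D ^ p)).const_mul 4
    simpa using h4
  have hev : ∀ᶠ δ in 𝓝[>] (0:ℝ),
      (D / 2) ^ p ≤ 4 * (C * (δ / (D / 2)) ^ (1 - p) * (2 * D ^ p)) := by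
    filter_upwards [Ioo_mem_nhdsGT (show (0:ℝ) < D / 2 by linarith)] with δ hδ
    exact key δ hδ.1 hδ.2
  have := ge_of_tendsto hlim hev
  have hpos : 0 < (D / 2) ^ p := by positivity
  linarith

/-- The segment `[0, 1/2]` is isometrically embedded in the circle of length one. -/
lemma circle_segment : ∀ s ∈ Icc (0:ℝ) (1 / 2), ∀ t ∈ Icc (0:ℝ) (1 / 2),
    dist (s : AddCircle (1:ℝ)) (t : AddCircle (1:ℝ)) = |s - t| := by
  intro s hs t ht
  rw [dist_eq_norm, ← AddCircle.coe_sub, AddCircle.norm_coe_eq_abs_iff (p := 1) one_ne_zero,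
    abs_one, abs_le]
  constructor <;> linarith [hs.1, hs.2, ht.1, ht.2]

/-- **Main theorem.** For every exponent `p ∈ [0,1)` the scaling inequality fails on the line
(`m = 1`), for every target space containing a geodesic segment; in particular it fails for the
circle of length one with its geodesic distance. -/
theorem result (p : ℝ) (hp : 0 ≤ p) (hp1 : p < 1) :
    (∀ (N : Type) [MetricSpace N] [MeasurableSpace N] [BorelSpace N] (D : ℝ) (γ : ℝ → N), 0 < D →
      (∀ s ∈ Icc (0:ℝ) D, ∀ t ∈ Icc (0:ℝ) D, dist (γ s) (γ t) = |s - t|) →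
      ¬ ScalingInequality ℝ N p) ∧
    ¬ ScalingInequality ℝ (AddCircle (1:ℝ)) p :=
  ⟨fun _ _ _ _ _ _ hD hγ => not_scaling hD hγ hp hp1,
    not_scaling (by norm_num) circle_segment hp hp1⟩

end Pool.Agent.Results.MP_a53ef7_an.LineFails
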